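import Pool.Agent.Helper94.SF.Dual
import Pool.Agent.Helper64.BKA.T1S
import Pool.Agent.Helper95.BKA.CJG
import Pool.Agent.Helper36.BKA.CJM

/-!
# Parity in extensions with a normal `2`-complement, without assuming finite dimension
-/

set_option autoImplicit false

open BKA NumberField

namespace BKA

/-- The inertia element `σ` is in a conjugate of some group `D i` for which `V → W i` is bijective:
the local condition there is the unramified one, or a stronger one. -/
def Local.UnrAt {k Γ : Type} [Field k] [Group Γ] {d : ℕ}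
    {ρ : Γ →* Matrix.GeneralLinearGroup (Fin d) k} (C : Local ρ) (σ : Γ) : Prop :=
  ∃ (i : C.I) (γ : Γ), Function.Bijective (C.j i) ∧ γ⁻¹ * σ * γ ∈ C.D i

/-- At almost all places the local condition is the unramified one, or a stronger one. -/
def Local.AlmostUnr {F k : Type} [Field F] [NumberField F] [Field k] {d : ℕ}
    {ρ : Gal F →* Matrix.GeneralLinearGroup (Fin d) k} (C : Local ρ) : Prop :=
  ∃ S₀ : Finset (Pl F), ∀ v ∉ S₀, ∀ 𝔓 : Ideal (Zb F), Over v 𝔓 → ∀ σ, Congr 𝔓 1 σ → C.UnrAt σ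

/-- The topology of the field `k` is given by a nonarchimedean absolute value, and the residue
characteristic is a prime number. -/
def IsNonarch (k : Type) [Field k] [TopologicalSpace k] : Prop :=
  ∃ (p : ℕ) (v : AbsoluteValue k ℝ), p.Prime ∧ IsNonarchimedean v ∧ v (p : k) < 1 ∧
    ∀ s : Set k, s ∈ nhds (0 : k) ↔ ∃ ε > 0, ∀ x : k, v x < ε → x ∈ s

section

variable {F E k : Type} [Field F] [NumberField F] [Field E] [Field k] [TopologicalSpace k]
  {V : Repr F E k}

/-- `V` and the local conditions `C` are invariant under an automorphism `c` of the coefficients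
which inverts the roots of unity of order dividing the exponent of the Galois group. -/
def Ext.InvRoots (L : Ext V) (C : Local V.ρ) : Prop :=
  ∃ c : k ≃+* k, C.Invar c ∧
    ∀ ζ : Eˣ, ζ ^ Monoid.exponent L.G = 1 → c (V.emb ζ) = V.emb (ζ⁻¹ : Eˣ)

/-- The Selmer groups of `V ⊗ χ` and `V ⊗ χ⁻¹` over `K = L^H` have the same dimension. -/
def Ext.DualDim (L : Ext V) (C : Local V.ρ) : Prop :=
  ∀ (H : Subgroup L.G) (χ : Ch E H) (s : ℕ), L.Sel C H χ s → L.Sel C H χ.inv s

/-- The `L`-functions of all `V ⊗ χ` over `K = L^H` have a meromorphic continuation. -/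
def Ext.ContAll (L : Ext V) : Prop :=
  ∀ (H : Subgroup L.G) (χ : Ch E H), ∃ a : ℤ, L.Ord H χ a

/-- The Selmer group of `V` over `K = L^H` has finite dimension, and its dimension and the order at
`0` of the `L`-function have the same parity. -/
def Ext.ParF (L : Ext V) (C : Local V.ρ) (H : Subgroup L.G) : Prop :=
  ∃ (s : ℕ) (a : ℤ), L.Sel C H Ch.triv s ∧ L.Ord H Ch.triv a ∧ Even ((s : ℤ) - a)

end

end BKA

namespace SF94

/-- the Selmer group over `L` has finite dimension -/
theorem fin_normed {F E k : Type} [Field F] [NumberField F] [Field E] [NormedField k]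
    [IsUltrametricDist k] (p : ℕ) [Fact p.Prime] (hp : ‖(p : k)‖ < 1) (V : Repr F E k)
    (C : Local V.ρ) (hC : C.AlmostUnr) (L : Ext V) : ∃ s, L.Sel C ⊥ Ch.triv s := by
  classical
  obtain ⟨S₀, hS₀⟩ := hC
  have hn := L.normal
  have hbot : L.gal ⊥ = L.N := by
    ext g
    rw [Ext.gal, Subgroup.mem_comap, Subgroup.mem_bot]
    exact QuotientGroup.eq_one_iff g
  have hn' : (L.gal ⊥).Normal := by
    rw [hbot]
    exact hn
  obtain ⟨s, hs⟩ := selDim p hp V.ρ V.cont C (L.gal ⊥) (by rw [hbot]; exact L.isOpen)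
    (S₀ ∪ V.S) (fun v hv => hS₀ v fun h => hv (Finset.mem_union_left _ h))
    (fun v hv 𝔓 h𝔓 σ hσ => ⟨V.unr v (fun h => hv (Finset.mem_union_right _ h)) 𝔓 h𝔓 σ hσ, by
      rw [hbot]
      exact L.unr v (fun h => hv (Finset.mem_union_right _ h)) 𝔓 h𝔓 σ hσ⟩)
  refine ⟨s, ?_⟩
  unfold Ext.Sel
  have h1 : (Ch.triv : Ch E (⊥ : Subgroup L.G)).map V.emb = 1 := MonoidHom.comp_one _
  rw [h1, MonoidHom.one_comp]
  exact hs

/-- **The Selmer group over `L` has finite dimension.** -/
theorem fin {F E k : Type} [Field F] [NumberField F] [Field E] [Field k] [TopologicalSpace k]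
    [IsTopologicalRing k] (hk : IsNonarch k) (V : Repr F E k) (C : Local V.ρ)
    (hC : C.AlmostUnr) (L : Ext V) : ∃ s, L.Sel C ⊥ Ch.triv s := by
  obtain ⟨p, v, hp, hv, hvp, hnhds⟩ := hk
  have : Fact p.Prime := ⟨hp⟩
  let N : NormedField k := v.toNormedField
  have hnorm : ∀ x : k, N.norm x = v x := fun _ => rfl
  have htop : ‹TopologicalSpace k› = N.toUniformSpace.toTopologicalSpace := by
    refine IsTopologicalAddGroup.ext inferInstance inferInstance ?_
    ext s
    rw [hnhds, Metric.mem_nhds_iff]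
    constructor
    · rintro ⟨ε, hε, h⟩
      refine ⟨ε, hε, fun x hx => h x ?_⟩
      rw [mem_ball_zero_iff] at hx
      exact hx
    · rintro ⟨ε, hε, h⟩
      refine ⟨ε, hε, fun x hx => h ?_⟩
      rw [mem_ball_zero_iff]
      exact hx
  subst htop
  have hu : IsUltrametricDist k := IsUltrametricDist.isUltrametricDist_of_isNonarchimedean_norm hv
  exact fin_normed p hvp V C hC L

theorem t1f (F E k : Type) [Field F] [NumberField F] [Field E] [Field k] [CharZero k]
    [TopologicalSpace k] [IsTopologicalRing k] (hk : IsNonarch k)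
    (V : Repr F E k) (C : Local V.ρ) (hC : C.AlmostUnr)
    (L : Ext V) [HasEnoughRootsOfUnity E (Monoid.exponent L.G)]
    (ha : L.ContAll) (hd : L.InvRoots C ∨ L.DualDim C)
    (A : Subgroup L.G) [A.Normal] (hA : Odd (Nat.card A)) (hAs : Group.IsSolvable A)
    (h2 : ∃ n : ℕ, A.index = 2 ^ n)
    (hpar : ∀ χ : Ch E (⊤ : Subgroup L.G), χ.Quad → L.Par C ⊤ χ)
    (H : Subgroup L.G) (hH : Odd (Nat.card H)) : L.ParF C H := by
  obtain ⟨s₀, hs₀⟩ := fin hk V C hC L
  have hd' : ∀ H χ s, L.Sel C H χ s → L.Sel C H χ.inv s := by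
    rcases hd with ⟨c, hc, hc'⟩ | hd
    · exact dual C L c hc hc'
    · exact hd
  have h := t1s st_CJG st_CJM F E k V C L ⟨s₀, hs₀⟩ ha hd' A hA hAs h2 hpar H hH
  obtain ⟨s, hs⟩ := sel_exists C L s₀ hs₀ H Ch.triv
  obtain ⟨a, haa⟩ := ha H Ch.triv
  exact ⟨s, a, hs, haa, h s a hs haa⟩

end SF94
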