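import Pool.Agent.Helper94.SF.Abs
import Pool.Agent.Helper64.BKA.Defs

/-!
# Continuous cocycles with given ramification are determined by finitely many values, part 2
-/

set_option autoImplicit false

namespace SF94

lemma index_normalCore {G : Type} [Group G] (P : Subgroup G) (hP : P.index ≠ 0) {n : ℕ}
    (hn : P.index ≤ n) : P.normalCore.index ≠ 0 ∧ P.normalCore.index ≤ n.factorial := by
  have hf : P.FiniteIndex := ⟨hP⟩
  have : Finite (G ⧸ P) := Subgroup.finite_quotient_of_finiteIndex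
  refine ⟨?_, ?_⟩
  · have : P.normalCore.FiniteIndex := inferInstance
    exact this.index_ne_zero
  · rw [Subgroup.normalCore_eq_ker, Subgroup.index_ker]
    refine (Nat.card_le_card_of_injective _ Subtype.val_injective).trans ?_
    rw [Nat.card_perm, ← Subgroup.index_eq_card]
    exact Nat.factorial_le hn

lemma isClosed_normalCore {G : Type} [Group G] [TopologicalSpace G] [IsTopologicalGroup G]
    (P : Subgroup G) (hP : IsClosed (P : Set G)) : IsClosed (P.normalCore : Set G) := by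
  have h1 : (P.normalCore : Set G) = ⋂ b : G, (fun a => b * a * b⁻¹) ⁻¹' (P : Set G) := by
    ext a
    simp only [Set.mem_iInter, Set.mem_preimage]
    rfl
  rw [h1]
  exact isClosed_iInter fun b => hP.preimage (by fun_prop)

open BKA in
/-- **Finitely many values** determine a continuous cocycle which vanishes on the set `I` of
inertia elements, if there are only finitely many extensions of bounded degree in which the elements
of `I` act trivially (Hermite). -/
theorem af {Γ k : Type} [Group Γ] [TopologicalSpace Γ] [IsTopologicalGroup Γ] [CompactSpace Γ]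
    [TotallyDisconnectedSpace Γ] [NormedField k] [IsUltrametricDist k] (p : ℕ) [Fact p.Prime]
    (hp : ‖(p : k)‖ < 1) {d : ℕ} (ρ : Γ →* Matrix.GeneralLinearGroup (Fin d) k)
    (hρ : Continuous ρ) (N : Subgroup Γ) [N.Normal] (hN : IsOpen (N : Set Γ)) (I : Set Γ)
    (hIc : ∀ σ ∈ I, ∀ γ : Γ, γ * σ * γ⁻¹ ∈ I) (hIN : ∀ σ ∈ I, σ ∈ N) (hIρ : ∀ σ ∈ I, ρ σ = 1)
    (her : ∀ D : ℕ, ∃ Y₀ : Subgroup Γ, IsOpen (Y₀ : Set Γ) ∧ ∀ Y : Subgroup Γ, Y.Normal →
      IsClosed (Y : Set Γ) → Y.index ≠ 0 → Y.index ≤ D → (∀ σ ∈ I, σ ∈ Y) → Y₀ ≤ Y) :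
    ∃ T : Finset N, ∀ c : N → Fin d → k, Continuous c →
      (∀ g h, c (g * h) = c g + vec ρ g (c h)) → (∀ σ (h : σ ∈ N), σ ∈ I → c ⟨σ, h⟩ = 0) →
      (∀ t ∈ T, c t = 0) → c = 0 := by
  classical
  -- a neighbourhood of `1` on which `ρ` is almost trivial
  let R : Γ → Matrix (Fin d) (Fin d) k := fun g =>
    ((ρ g : Matrix.GeneralLinearGroup (Fin d) k) : Matrix (Fin d) (Fin d) k)
  have hRc : Continuous R := Units.continuous_val.comp hρ
  have hU : IsOpen {g : Γ | ∀ i j, ‖(R g - 1) i j‖ < 1 / 2} := by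
    simp only [Set.ofPred_forall]
    refine isOpen_iInter_of_finite fun i => isOpen_iInter_of_finite fun j => ?_
    refine isOpen_lt ?_ continuous_const
    exact (((continuous_apply_apply i j).comp hRc).sub continuous_const).norm
  obtain ⟨W, hW⟩ := ProfiniteGrp.exist_openNormalSubgroup_sub_open_nhds_of_one hU (by
    intro i j
    have h1 : R 1 = 1 := by
      show ((ρ 1 : Matrix.GeneralLinearGroup (Fin d) k) : Matrix (Fin d) (Fin d) k) = 1
      rw [map_one]
      rfl
    rw [h1, sub_self]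
    simp)
  have hWn : (W.toSubgroup).Normal := W.isNormal'
  set M : Subgroup Γ := N ⊓ (W.toSubgroup ⊔ ρ.ker) with hM
  have hMn : M.Normal := inferInstance
  have hMo : IsOpen (M : Set Γ) := by
    rw [hM, Subgroup.coe_inf]
    exact hN.inter (Subgroup.isOpen_mono le_sup_left W.isOpen')
  have hMR : ∀ g ∈ M, ∀ i j, ‖(R g - 1) i j‖ ≤ 1 / 2 := by
    intro g hg i j
    obtain ⟨w, hw, z, hz, rfl⟩ := Subgroup.mem_sup_of_normal_left.1 hg.2
    have h1 : R (w * z) = R w := by
      show ((ρ (w * z) : Matrix.GeneralLinearGroup (Fin d) k) : Matrix (Fin d) (Fin d) k) = _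
      rw [map_mul, (MonoidHom.mem_ker).1 hz, mul_one]
    rw [h1]
    exact (hW hw i j).le
  have hIM : ∀ σ ∈ I, σ ∈ M := fun σ hσ => ⟨hIN σ hσ, Subgroup.mem_sup_right (hIρ σ hσ)⟩
  have hMN : M ≤ N := inf_le_left
  have hMf : M.FiniteIndex := by
    have : Finite (Γ ⧸ M) := Subgroup.quotient_finite_of_isOpen M hMo
    exact Subgroup.finiteIndex_of_finite_quotient
  have hMcs : CompactSpace M :=
    isCompact_iff_compactSpace.1 (Subgroup.isClosed_of_isOpen M hMo).isCompact
  -- the theorem of Hermite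
  obtain ⟨Y₀, hY₀o, hY₀⟩ := her ((p * M.index).factorial)
  set M' : Subgroup Γ := Y₀ ⊓ M with hM'
  have hM'o : IsOpen (M' : Set Γ) := by
    rw [hM', Subgroup.coe_inf]
    exact hY₀o.inter hMo
  have hfin : Finite (Γ ⧸ M') := Subgroup.quotient_finite_of_isOpen M' hM'o
  -- representatives
  have hrep : ∃ T : Finset N, ∀ g : N, ∃ t ∈ T, (t : Γ)⁻¹ * g ∈ M' := by
    let f : Γ ⧸ M' → Set N := fun x => {g : N | (QuotientGroup.mk (g : Γ) : Γ ⧸ M') = x}
    have := Fintype.ofFinite (Γ ⧸ M')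
    let T : Finset N := Finset.univ.image fun x : Γ ⧸ M' =>
      if h : (f x).Nonempty then h.some else 1
    refine ⟨T, fun g => ?_⟩
    have hne : (f (QuotientGroup.mk (g : Γ))).Nonempty := ⟨g, rfl⟩
    refine ⟨hne.some, Finset.mem_image.2 ⟨QuotientGroup.mk (g : Γ), Finset.mem_univ _, ?_⟩, ?_⟩
    · rw [dif_pos hne]
    · have h1 : (QuotientGroup.mk (hne.some : Γ) : Γ ⧸ M') = QuotientGroup.mk (g : Γ) :=
        hne.some_mem
      exact QuotientGroup.eq.1 h1
  obtain ⟨T, hT⟩ := hrep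
  refine ⟨T, fun c hc hmul hI hcT => ?_⟩
  -- the cocycle vanishes on `M`
  have hM0 : ∀ g (h : g ∈ M), c ⟨g, hMN h⟩ = 0 := by
    by_contra hcon
    push Not at hcon
    obtain ⟨g₁, hg₁, hcg₁⟩ := hcon
    let c' : M → Fin d → k := fun g => c ⟨g, hMN g.2⟩
    obtain ⟨P, hPo, hPi, hPt, hPc⟩ := exists_sub p hp (fun g : M => R g) (fun g => hMR g g.2) c'
      (hc.comp (by fun_prop)) (fun g h => hmul ⟨g, hMN g.2⟩ ⟨h, hMN h.2⟩)
      (fun h => hcg₁ (congrFun h ⟨g₁, hg₁⟩))
    have hPo' : IsOpen ((P.map M.subtype : Subgroup Γ) : Set Γ) := by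
      rw [Subgroup.coe_map]
      exact hMo.isOpenMap_subtype_val _ hPo
    have hPi0 : P.index ≠ 0 := by
      have : Finite (M ⧸ P) := Subgroup.quotient_finite_of_isOpen P hPo
      exact (Subgroup.finiteIndex_of_finite_quotient (H := P)).index_ne_zero
    have hPi' : (P.map M.subtype).index ≤ p * M.index := by
      rw [Subgroup.index_map_subtype]
      exact Nat.mul_le_mul_right _ hPi
    have hPi0' : (P.map M.subtype).index ≠ 0 := by
      rw [Subgroup.index_map_subtype]
      exact mul_ne_zero hPi0 hMf.index_ne_zero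
    obtain ⟨hi0, hi1⟩ := index_normalCore (P.map M.subtype) hPi0' hPi'
    have hcl := isClosed_normalCore (P.map M.subtype) (Subgroup.isClosed_of_isOpen _ hPo')
    have hle := hY₀ (P.map M.subtype).normalCore inferInstance hcl hi0 hi1 (by
      intro σ hσ b
      have h1 := hIc σ hσ b
      have h2 := hIM _ h1
      refine ⟨⟨_, h2⟩, hPc _ (hI _ _ h1), rfl⟩)
    apply hPt
    rw [eq_top_iff]
    intro g _
    obtain ⟨t, htT, ht⟩ := hT ⟨g, hMN g.2⟩
    have htM : (t : Γ) ∈ M := by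
      have h1 : (t : Γ) = g * ((t : Γ)⁻¹ * g)⁻¹ := by group
      rw [h1]
      exact M.mul_mem g.2 (M.inv_mem ht.2)
    have h3 : (⟨t, htM⟩ : M) ∈ P := hPc _ (hcT t htT)
    have h4 : (t : Γ)⁻¹ * g ∈ P.map M.subtype := Subgroup.normalCore_le _ (hle ht.1)
    obtain ⟨x, hx, hxe⟩ := h4
    have h5 : g = ⟨t, htM⟩ * x := by
      apply Subtype.ext
      show (g : Γ) = t * x
      have h6 : (x : Γ) = (t : Γ)⁻¹ * g := hxe
      rw [h6]
      group
    rw [h5]
    exact P.mul_mem h3 hx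
  funext g
  obtain ⟨t, htT, ht⟩ := hT g
  have h1 : g = t * ⟨(t : Γ)⁻¹ * g, hMN ht.2⟩ := by
    apply Subtype.ext
    show (g : Γ) = t * ((t : Γ)⁻¹ * g)
    group
  rw [h1, hmul, hcT t htT, hM0 _ ht.2]
  show (0 : Fin d → k) + (R t).mulVec 0 = 0
  rw [Matrix.mulVec_zero, add_zero]

end SF94
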