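import Mathlib

/-!
# Continuous cocycles with given ramification are determined by finitely many values
-/

set_option autoImplicit false

namespace SF94

/-- the vectors with entries of norm at most `t` -/
def ball {k : Type} [NormedField k] [IsUltrametricDist k] (d : ℕ) (t : ℝ) (ht : 0 ≤ t) :
    AddSubgroup (Fin d → k) where
  carrier := {v | ∀ i, ‖v i‖ ≤ t}
  zero_mem' := fun i => by simpa using ht
  add_mem' := fun {a b} ha hb i =>
    (IsUltrametricDist.norm_add_le_max (a i) (b i)).trans (max_le (ha i) (hb i))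
  neg_mem' := fun {a} ha i => by
    rw [Pi.neg_apply, norm_neg]
    exact ha i

lemma mem_ball {k : Type} [NormedField k] [IsUltrametricDist k] {d : ℕ} {t : ℝ} {ht : 0 ≤ t}
    {v : Fin d → k} : v ∈ ball d t ht ↔ ∀ i, ‖v i‖ ≤ t := Iff.rfl

/-- a nonzero element of a vector space over `ℤ / p` has a nonzero image in `ℤ / p` -/
lemma exists_hom' (p : ℕ) [Fact p.Prime] {Q : Type} [AddCommGroup Q] [Module (ZMod p) Q]
    {x : Q} (hx : x ≠ 0) : ∃ φ : Q →+ ZMod p, φ x ≠ 0 := by
  by_contra hcon
  push Not at hcon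
  refine hx ((Module.forall_dual_apply_eq_zero_iff (ZMod p) (V := Q) x).1 fun φ => ?_)
  exact hcon (φ : Q →ₗ[ZMod p] ZMod p).toAddMonoidHom

/-- a nonzero element of a group of exponent `p` has a nonzero image in `ℤ / p` -/
lemma exists_hom (p : ℕ) [Fact p.Prime] {Q : Type} [AddCommGroup Q] (h : ∀ q : Q, p • q = 0)
    {x : Q} (hx : x ≠ 0) : ∃ φ : Q →+ ZMod p, φ x ≠ 0 :=
  @exists_hom' p _ Q _ (AddCommGroup.zmodModule h) x hx

/-- A nonzero continuous cocycle on a compact group which acts almost trivially has values `0` at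
most on a subgroup of index `p`. -/
theorem exists_sub {M k : Type} [Group M] [TopologicalSpace M] [IsTopologicalGroup M]
    [CompactSpace M] [NormedField k] [IsUltrametricDist k] (p : ℕ) [Fact p.Prime]
    (hp : ‖(p : k)‖ < 1) {d : ℕ} (R : M → Matrix (Fin d) (Fin d) k)
    (hR : ∀ g i j, ‖(R g - 1) i j‖ ≤ 1 / 2) (c : M → Fin d → k) (hc : Continuous c)
    (hmul : ∀ g h, c (g * h) = c g + (R g).mulVec (c h)) (hne : c ≠ 0) :
    ∃ P : Subgroup M, IsOpen (P : Set M) ∧ P.index ≤ p ∧ P ≠ ⊤ ∧ ∀ g, c g = 0 → g ∈ P := by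
  classical
  obtain ⟨g₁, hg₁⟩ := Function.ne_iff.1 hne
  obtain ⟨i₁, hi₁⟩ := Function.ne_iff.1 hg₁
  -- the maximum of the norms
  obtain ⟨⟨g₀, i₀⟩, -, hmax⟩ := (isCompact_univ : IsCompact (Set.univ : Set (M × Fin d))).exists_isMaxOn
    ⟨(g₁, i₁), trivial⟩ (f := fun x : M × Fin d => ‖c x.1 x.2‖) (by
      have h1 : Continuous fun x : M × Fin d => ‖c x.1 x.2‖ := by
        rw [continuous_prod_of_discrete_right]
        intro i
        exact ((continuous_apply i).comp hc).norm
      exact h1.continuousOn)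
  set s : ℝ := ‖c g₀ i₀‖ with hs
  have hle : ∀ g i, ‖c g i‖ ≤ s := fun g i => hmax (Set.mem_univ (g, i))
  have hs0 : 0 < s := lt_of_lt_of_le (norm_pos_iff.2 hi₁) (hle g₁ i₁)
  set r : ℝ := max ‖(p : k)‖ (1 / 2) with hr
  have hr1 : r < 1 := max_lt hp (by norm_num)
  have hr0 : 0 < r := lt_of_lt_of_le (by norm_num) (le_max_right _ _)
  have hrs : 0 ≤ r * s := by positivity
  let B := ball (k := k) d s hs0.le
  let B' := ball (k := k) d (r * s) hrs
  let Q := B ⧸ B'.addSubgroupOf B
  have hpQ : ∀ q : Q, p • q = 0 := by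
    intro q
    obtain ⟨v, rfl⟩ := QuotientAddGroup.mk_surjective q
    have h1 : p • (QuotientAddGroup.mk v : Q) = QuotientAddGroup.mk (p • v) := rfl
    rw [h1, QuotientAddGroup.eq_zero_iff, AddSubgroup.mem_addSubgroupOf, mem_ball]
    intro i
    have h2 : ((p • v : B) : Fin d → k) i = (p : k) * (v : Fin d → k) i := by
      rw [AddSubgroup.coe_nsmul, Pi.smul_apply, nsmul_eq_mul]
    rw [h2, norm_mul]
    exact mul_le_mul (le_max_left _ _) (v.2 i) (norm_nonneg _) hr0.le
  -- the homomorphism to `Q`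
  let cb : M → Q := fun g => QuotientAddGroup.mk (⟨c g, fun i => hle g i⟩ : B)
  have hcb : ∀ g h, cb (g * h) = cb g + cb h := by
    intro g h
    have h1 : cb g + cb h = QuotientAddGroup.mk
        ((⟨c g, fun i => hle g i⟩ : B) + ⟨c h, fun i => hle h i⟩) := rfl
    rw [h1, eq_comm, QuotientAddGroup.eq, AddSubgroup.mem_addSubgroupOf, mem_ball]
    intro i
    have h2 : ((-((⟨c g, fun i => hle g i⟩ : B) + ⟨c h, fun i => hle h i⟩) +
        ⟨c (g * h), fun i => hle (g * h) i⟩ : B) : Fin d → k) i =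
        ((R g - 1).mulVec (c h)) i := by
      show (-(c g + c h) + c (g * h)) i = _
      rw [hmul, Matrix.sub_mulVec, Matrix.one_mulVec]
      simp only [Pi.add_apply, Pi.neg_apply, Pi.sub_apply]
      ring
    rw [h2, Matrix.mulVec, dotProduct]
    refine IsUltrametricDist.norm_sum_le_of_forall_le_of_nonneg hrs fun j _ => ?_
    rw [norm_mul]
    exact mul_le_mul ((hR g i j).trans (le_max_right _ _)) (hle h j) (norm_nonneg _) hr0.le
  have hcb0 : cb g₀ ≠ 0 := by
    intro h
    have h1 : (⟨c g₀, fun i => hle g₀ i⟩ : B) ∈ B'.addSubgroupOf B :=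
      (QuotientAddGroup.eq_zero_iff _).1 h
    rw [AddSubgroup.mem_addSubgroupOf, mem_ball] at h1
    have h2 := h1 i₀
    change s ≤ r * s at h2
    nlinarith
  obtain ⟨φ, hφ⟩ : ∃ φ : Q →+ ZMod p, φ (cb g₀) ≠ 0 := exists_hom p hpQ hcb0
  let ψ : M →* Multiplicative (ZMod p) :=
    { toFun := fun g => Multiplicative.ofAdd (φ (cb g))
      map_one' := by
        have h1 := hcb 1 1
        rw [mul_one, right_eq_add] at h1
        rw [h1, map_zero, ofAdd_zero]
      map_mul' := fun g h => by rw [hcb, map_add, ofAdd_add] }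
  have hker : ∀ g, g ∈ ψ.ker ↔ φ (cb g) = 0 := fun g => by
    rw [MonoidHom.mem_ker]
    exact ofAdd_eq_one
  refine ⟨ψ.ker, ?_, ?_, ?_, ?_⟩
  · refine Subgroup.isOpen_of_mem_nhds _ (g := 1) ?_
    have h1 : c 1 = 0 := by
      have h1 := hmul 1 1
      rw [mul_one] at h1
      have h2 : (R 1).mulVec (c 1) = 0 := by
        have := h1
        rwa [left_eq_add] at this
      -- every entry of `c 1` is at most half of the maximum
      have h3 : c 1 = -((R 1 - 1).mulVec (c 1)) := by
        rw [Matrix.sub_mulVec, Matrix.one_mulVec, h2]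
        simp
      by_contra hcon
      obtain ⟨j, hj⟩ := Function.ne_iff.1 hcon
      obtain ⟨j₀, -, hj₀⟩ := Finset.exists_max_image Finset.univ (fun j => ‖c 1 j‖) ⟨j, Finset.mem_univ _⟩
      have h4 : ‖c 1 j₀‖ ≤ 1 / 2 * ‖c 1 j₀‖ := by
        have h5 : ‖c 1 j₀‖ = ‖((R 1 - 1).mulVec (c 1)) j₀‖ := by
          conv_lhs => rw [h3]
          rw [Pi.neg_apply, norm_neg]
        rw [h5]
        conv_lhs => rw [Matrix.mulVec, dotProduct]
        refine IsUltrametricDist.norm_sum_le_of_forall_le_of_nonneg (by positivity) fun j' _ => ?_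
        rw [norm_mul, ← h5]
        exact mul_le_mul (hR 1 j₀ j') (hj₀ j' (Finset.mem_univ _)) (norm_nonneg _) (by norm_num)
      have h6 : 0 < ‖c 1 j‖ := norm_pos_iff.2 hj
      have h7 := hj₀ j (Finset.mem_univ _)
      linarith
    have h2 : {g : M | ∀ i, ‖c g i‖ < r * s} ∈ nhds (1 : M) := by
      rw [Set.ofPred_forall]
      refine (isOpen_iInter_of_finite fun i => ?_).mem_nhds ?_
      · exact isOpen_lt ((continuous_apply i).comp hc).norm continuous_const
      · rw [Set.mem_iInter]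
        intro i
        show ‖c 1 i‖ < r * s
        rw [h1, Pi.zero_apply, norm_zero]
        positivity
    refine Filter.mem_of_superset h2 fun g hg => ?_
    show g ∈ ψ.ker
    rw [hker]
    have h3 : cb g = 0 := by
      refine (QuotientAddGroup.eq_zero_iff _).2 ?_
      rw [AddSubgroup.mem_addSubgroupOf, mem_ball]
      exact fun i => (hg i).le
    rw [h3, map_zero]
  · rw [Subgroup.index_ker]
    refine (Nat.card_le_card_of_injective _ Subtype.val_injective).trans ?_
    have h1 : Nat.card (Multiplicative (ZMod p)) = Nat.card (ZMod p) := rfl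
    rw [h1, Nat.card_zmod]
  · intro h
    have h1 : g₀ ∈ ψ.ker := by rw [h]; exact Subgroup.mem_top _
    exact hφ ((hker g₀).1 h1)
  · intro g hg
    rw [hker]
    have h3 : cb g = 0 := by
      refine (QuotientAddGroup.eq_zero_iff _).2 ?_
      rw [AddSubgroup.mem_addSubgroupOf, mem_ball]
      intro i
      show ‖c g i‖ ≤ r * s
      rw [hg, Pi.zero_apply, norm_zero]
      exact hrs
    rw [h3, map_zero]

end SF94
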