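import Pool.Agent.Helper94.SF.NT

/-!
# An automorphism of the coefficients and the dimension of Selmer groups
-/

set_option autoImplicit false

open BKA NumberField

namespace BKA

/-- the map `s` of `W` to itself is bijective, additive and `c`-semilinear -/
def Semi {k W : Type} [Field k] [AddCommGroup W] [Module k W] (c : k ≃+* k) (s : W → W) : Prop :=
  Function.Bijective s ∧ (∀ x y : W, s (x + y) = s x + s y) ∧ ∀ (a : k) (w : W), s (a • w) = c a • s w

/-- The local condition given by `D`, `W`, `j` is invariant under the automorphism `c` of the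
coefficients: some `c`-semilinear automorphism of `W` commutes with `D` and `j`. -/
def LocInv {k Γ W : Type} [Field k] [Group Γ] [AddCommGroup W] [Module k W] {d : ℕ}
    (c : k ≃+* k) (D : Subgroup Γ) (act : D →* (W →ₗ[k] W)) (j : (Fin d → k) →ₗ[k] W) : Prop :=
  ∃ s : W → W, Semi c s ∧ (∀ (g : D) (w : W), s (act g w) = act g (s w)) ∧
    ∀ v : Fin d → k, s (j v) = j (c ∘ v)

theorem LocInv.equiv {k Γ W : Type} [Field k] [Group Γ] [AddCommGroup W] [Module k W] {d : ℕ}
    {c : k ≃+* k} {D : Subgroup Γ} {act : D →* (W →ₗ[k] W)} {j : (Fin d → k) →ₗ[k] W}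
    (h : LocInv c D act j) : ∃ s : W ≃+ W, (∀ (a : k) (w : W), s (a • w) = c a • s w) ∧
    (∀ (g : D) (w : W), s (act g w) = act g (s w)) ∧ ∀ v : Fin d → k, s (j v) = j (c ∘ v) := by
  obtain ⟨s, ⟨h1, h2, h3⟩, h4, h5⟩ := h
  exact ⟨AddEquiv.ofBijective (AddMonoidHom.mk' s h2) h1, h3, h4, h5⟩

/-- The representation `ρ` and the local conditions `C` are invariant under the automorphism `c` of
the coefficients (they are defined over its fixed field). -/
structure Local.Invar {k Γ : Type} [Field k] [TopologicalSpace k] [Group Γ] {d : ℕ}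
    {ρ : Γ →* Matrix.GeneralLinearGroup (Fin d) k} (C : Local ρ) (c : k ≃+* k) : Prop where
  cont : Continuous c
  cont_symm : Continuous c.symm
  rep : ∀ (g : Γ) (v : Fin d → k), c ∘ vec ρ g v = vec ρ g (c ∘ v)
  loc : ∀ i : C.I, LocInv c (C.D i) (C.act i) (C.j i)

end BKA

namespace SF94

section

variable {k Γ : Type} [Field k] [TopologicalSpace k] [Group Γ] [TopologicalSpace Γ] {d : ℕ}
  {ρ : Γ →* Matrix.GeneralLinearGroup (Fin d) k} {C : Local ρ}

omit [TopologicalSpace Γ] in
lemma invar_symm {c : k ≃+* k} (h : C.Invar c) : C.Invar c.symm where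
  cont := h.cont_symm
  cont_symm := h.cont
  rep g v := by
    have h1 : c ∘ (c.symm ∘ vec ρ g v) = c ∘ vec ρ g (c.symm ∘ v) := by
      rw [h.rep]
      funext n
      simp only [Function.comp_apply, RingEquiv.apply_symm_apply]
      congr 1
      funext m
      simp only [Function.comp_apply, RingEquiv.apply_symm_apply]
    funext n
    exact c.injective (congrFun h1 n)
  loc i := by
    obtain ⟨s, h1, h2, h3⟩ := (h.loc i).equiv
    refine ⟨s.symm, ⟨s.symm.bijective, fun x y => map_add s.symm x y, fun a w => ?_⟩,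
      fun g w => ?_, fun v => ?_⟩
    · rw [AddEquiv.symm_apply_eq, h1, AddEquiv.apply_symm_apply, RingEquiv.apply_symm_apply]
    · rw [AddEquiv.symm_apply_eq, h2, AddEquiv.apply_symm_apply]
    · rw [AddEquiv.symm_apply_eq, h3]
      congr 1
      funext n
      simp only [Function.comp_apply, RingEquiv.apply_symm_apply]

omit [TopologicalSpace Γ] in
lemma vec_invar {c : k ≃+* k} (h : C.Invar c) (g : Γ) (v : Fin d → k) :
    (fun n => c (vec ρ g v n)) = vec ρ g (fun n => c (v n)) := h.rep g v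

/-- the image of a Selmer cocycle under the automorphism -/
lemma sel_invar {c : k ≃+* k} (h : C.Invar c) (U : Subgroup Γ) (χ χ' : U →* kˣ)
    (hχ : ∀ g, c ((χ g : kˣ) : k) = ((χ' g : kˣ) : k)) (f : U → Fin d → k)
    (hf : IsSel ρ C U χ f) : IsSel ρ C U χ' (fun g n => c (f g n)) := by
  obtain ⟨h1, h2, h3⟩ := hf
  refine ⟨?_, fun g g' => ?_, fun i γ => ?_⟩
  · refine continuous_pi fun n => ?_
    exact h.cont.comp ((continuous_apply n).comp h1)
  · funext n
    have h4 := congrFun (vec_invar h (g : Γ) (f g')) n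
    show c (f (g * g') n) = c (f g n) + ((χ' g : kˣ) : k) * vec ρ g (fun n => c (f g' n)) n
    rw [← h4, h2, ← hχ]
    simp only [Pi.add_apply, Pi.smul_apply, smul_eq_mul, map_add, map_mul]
  · obtain ⟨y, hy⟩ := h3 i γ
    obtain ⟨s, hs1, hs2, hs3⟩ := (h.loc i).equiv
    refine ⟨s y, fun g hg => ?_⟩
    have h5 : s (C.j i (vec ρ γ⁻¹ (f ⟨γ * g * γ⁻¹, hg⟩))) =
        C.j i (fun n => c (vec ρ γ⁻¹ (f ⟨γ * g * γ⁻¹, hg⟩) n)) := hs3 _
    rw [← vec_invar h γ⁻¹, ← h5, hy g hg, map_sub, hs1, hs2, hχ]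

omit [TopologicalSpace Γ] in
lemma cob_invar {c : k ≃+* k} (h : C.Invar c) (U : Subgroup Γ) (χ χ' : U →* kˣ)
    (hχ : ∀ g, c ((χ g : kˣ) : k) = ((χ' g : kˣ) : k)) (f : U → Fin d → k)
    (hf : IsCob ρ U χ f) : IsCob ρ U χ' (fun g n => c (f g n)) := by
  obtain ⟨v, hv⟩ := hf
  refine ⟨fun n => c (v n), fun g => ?_⟩
  funext n
  have h4 := congrFun (vec_invar h (g : Γ) v) n
  show c (f g n) = ((χ' g : kˣ) : k) * vec ρ g (fun n => c (v n)) n - c (v n)
  rw [← h4, hv, ← hχ]
  simp only [Pi.sub_apply, Pi.smul_apply, smul_eq_mul, map_sub, map_mul]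

/-- The Selmer groups of `V ⊗ χ` and of `V ⊗ c χ` have the same dimension. -/
theorem selDim_invar {c : k ≃+* k} (h : C.Invar c) (U : Subgroup Γ) (χ χ' : U →* kˣ)
    (hχ : ∀ g, c ((χ g : kˣ) : k) = ((χ' g : kˣ) : k)) (s : ℕ) (hs : SelDim ρ C U χ s) :
    SelDim ρ C U χ' s := by
  obtain ⟨b, hb, hb'⟩ := hs
  have h' := invar_symm h
  have hχ' : ∀ g, c.symm ((χ' g : kˣ) : k) = ((χ g : kˣ) : k) := fun g => by
    rw [RingEquiv.symm_apply_eq, hχ]
  refine ⟨fun i g n => c (b i g n), fun i => sel_invar h U χ χ' hχ _ (hb i), fun f hf => ?_⟩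
  have hf' := sel_invar h' U χ' χ hχ' f hf
  obtain ⟨a, ha, hau⟩ := hb' _ hf'
  refine ⟨fun i => c (a i), ?_, ?_⟩
  · have h1 := cob_invar h U χ χ' hχ _ ha
    convert h1 using 1
    funext g n
    simp only [Pi.sub_apply, Finset.sum_apply, Pi.smul_apply, smul_eq_mul, map_sub, map_sum,
      map_mul, RingEquiv.apply_symm_apply]
  · intro a' ha'
    have h1 := cob_invar h' U χ' χ hχ' _ ha'
    have h2 := hau (fun i => c.symm (a' i)) (by
      show IsCob ρ U χ _
      convert h1 using 1
      funext g n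
      simp only [Pi.sub_apply, Finset.sum_apply, Pi.smul_apply, smul_eq_mul, map_sub, map_sum,
        map_mul, RingEquiv.symm_apply_apply])
    funext i
    rw [← h2]
    simp only [RingEquiv.apply_symm_apply]

end

variable {F E k : Type} [Field F] [NumberField F] [Field E] [Field k] [TopologicalSpace k]
  {V : Repr F E k}

/-- **Duality of the dimensions** for representations defined over the fixed field of an
automorphism which inverts roots of unity. -/
theorem dual (C : Local V.ρ) (L : Ext V) (c : k ≃+* k) (h : C.Invar c)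
    (hc : ∀ ζ : Eˣ, ζ ^ Monoid.exponent L.G = 1 → c (V.emb ζ) = V.emb (ζ⁻¹ : Eˣ))
    (H : Subgroup L.G) (χ : Ch E H) (s : ℕ) (hs : L.Sel C H χ s) : L.Sel C H χ.inv s := by
  refine selDim_invar h _ _ _ (fun g => ?_) s hs
  have h1 : (χ.hom (L.res.subgroupComap H g)) ^ Monoid.exponent L.G = 1 := by
    rw [← map_pow]
    have h2 : (L.res.subgroupComap H g) ^ Monoid.exponent L.G = 1 := by
      apply Subtype.ext
      exact Monoid.pow_exponent_eq_one _
    rw [h2, map_one]
  exact hc _ h1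

end SF94
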