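import Pool.Agent.Helper94.SF.AF
import Pool.Agent.Helper64.BKA.EXS
import Pool.Agent.Helper98.REC.OVP
import Pool.Agent.Helper40.MU.Her

/-!
# Selmer groups have finite dimension
-/

set_option autoImplicit false

open BKA NumberField

namespace SF94

variable {F : Type} [Field F] [NumberField F]

omit [NumberField F] in
/-- the conjugate of an inertia element is an inertia element -/
lemma conj_inertia (p : ℕ) (𝔓 : Ideal (Zb F)) (h : MU.Over p 𝔓) (σ γ : Gal F)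
    (hσ : MU.CongPow 𝔓 1 σ) :
    ∃ 𝔓' : Ideal (Zb F), MU.Over p 𝔓' ∧ MU.CongPow 𝔓' 1 (γ * σ * γ⁻¹ : Gal F) := by
  let e : Zb F ≃ₐ[ℤ] Zb F := (AlgEquiv.restrictScalars ℤ (γ⁻¹ : Gal F)).mapIntegralClosure
  have he : ∀ x : Zb F, ((e x : Zb F) : AlgebraicClosure F) = (γ⁻¹ : Gal F) (x : AlgebraicClosure F) :=
    fun x => rfl
  refine ⟨𝔓.comap e.toRingEquiv.toRingHom, ⟨h.1.comap _, ?_⟩, ?_⟩
  · show e (p : Zb F) ∈ 𝔓
    rw [map_natCast]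
    exact h.2
  · intro x y hxy
    have h1 := hσ (e x) (e y) (by
      rw [he, he, hxy]
      simp only [AlgEquiv.mul_apply]
      rw [← AlgEquiv.mul_apply γ⁻¹ γ, inv_mul_cancel]
      rfl)
    have h2 : ∀ a b : Zb F, e (a - b ^ 1) = e a - e b ^ 1 := fun a b => by rw [map_sub, map_pow]
    have h3 : e (y - x ^ 1) ∈ 𝔓 := (h2 y x).symm ▸ h1
    exact h3

omit [NumberField F] in
/-- only one prime number is in a prime ideal -/
lemma prime_eq {p p' : ℕ} (hp : p.Prime) (hp' : p'.Prime) (𝔓 : Ideal (Zb F)) (h : MU.Over p 𝔓)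
    (h' : MU.Over p' 𝔓) : p = p' := by
  by_contra hne
  have hco : IsCoprime (p : ℤ) (p' : ℤ) := Nat.isCoprime_iff_coprime.2
    ((Nat.coprime_primes hp hp').2 hne)
  obtain ⟨a, b, hab⟩ := hco
  have h1 : (1 : Zb F) ∈ 𝔓 := by
    have h2 : ((a : Zb F) * (p : Zb F) + (b : Zb F) * (p' : Zb F)) ∈ 𝔓 :=
      𝔓.add_mem (𝔓.mul_mem_left _ h.2) (𝔓.mul_mem_left _ h'.2)
    have h3 : ((a : Zb F) * (p : Zb F) + (b : Zb F) * (p' : Zb F)) = 1 := by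
      have := congrArg (fun z : ℤ => (z : Zb F)) hab
      push_cast at this
      exact this
    rwa [h3] at h2
  exact h.1.ne_top ((Ideal.eq_top_iff_one 𝔓).2 h1)

/-- The prime numbers under the places in `S₀`. -/
noncomputable def resch (S₀ : Finset (Pl F)) : Finset ℕ := S₀.biUnion fun v => (q v).primeFactors

lemma resch_prime (S₀ : Finset (Pl F)) : ∀ p ∈ resch S₀, p.Prime := by
  intro p hp
  obtain ⟨v, -, hv⟩ := Finset.mem_biUnion.1 hp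
  exact Nat.prime_of_mem_primeFactors hv

/-- a prime over a prime number outside `resch S₀` is over a place outside `S₀` -/
lemma exists_place (S₀ : Finset (Pl F)) {p : ℕ} (hp : p.Prime) (hpS : p ∉ resch S₀)
    (𝔓 : Ideal (Zb F)) (h : MU.Over p 𝔓) : ∃ v ∉ S₀, Over v 𝔓 := by
  obtain ⟨-, -, h3, h4, -⟩ := REC.st_OVP F
  obtain ⟨v, hv⟩ := h3 p 𝔓 hp h
  obtain ⟨p', f, hp', hf, hq, hp'𝔓, -⟩ := h4 v 𝔓 hv
  refine ⟨v, fun hvS => hpS ?_, hv.1, fun x y hxy => (hv.2 x y hxy).symm⟩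
  refine Finset.mem_biUnion.2 ⟨v, hvS, ?_⟩
  have h5 : p = p' := prime_eq hp hp' 𝔓 h hp'𝔓
  have hq' : q v = p' ^ f := hq
  rw [hq', h5, Nat.primeFactors_prime_pow (by omega) hp']
  exact Finset.mem_singleton_self _

/-- **Finitely many values determine a Selmer cocycle.** -/
theorem exists_T {k : Type} [NormedField k] [IsUltrametricDist k] (p : ℕ) [Fact p.Prime]
    (hp : ‖(p : k)‖ < 1) {d : ℕ} (ρ : Gal F →* Matrix.GeneralLinearGroup (Fin d) k)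
    (hρ : Continuous ρ) (C : Local ρ) (N : Subgroup (Gal F)) [N.Normal]
    (hN : IsOpen (N : Set (Gal F))) (S₀ : Finset (Pl F))
    (hC : ∀ v ∉ S₀, ∀ 𝔓 : Ideal (Zb F), Over v 𝔓 → ∀ σ, Congr 𝔓 1 σ →
      ∃ (i : C.I) (γ : Gal F), Function.Bijective (C.j i) ∧ γ⁻¹ * σ * γ ∈ C.D i)
    (hun : ∀ v ∉ S₀, ∀ 𝔓 : Ideal (Zb F), Over v 𝔓 → ∀ σ, Congr 𝔓 1 σ → ρ σ = 1 ∧ σ ∈ N) :
    ∃ T : Finset N, ∀ c : N → Fin d → k, IsSel ρ C N 1 c → (∀ t ∈ T, c t = 0) → c = 0 := by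
  let I : Set (Gal F) := {σ | ∃ p : ℕ, p.Prime ∧ p ∉ resch S₀ ∧ ∃ 𝔓 : Ideal (Zb F),
    MU.Over p 𝔓 ∧ MU.CongPow 𝔓 1 σ}
  have hI : ∀ σ ∈ I, ∃ v ∉ S₀, ∃ 𝔓 : Ideal (Zb F), Over v 𝔓 ∧ Congr 𝔓 1 σ := by
    rintro σ ⟨l, hl, hlS, 𝔓, h𝔓, hσ⟩
    obtain ⟨v, hv, hv𝔓⟩ := exists_place S₀ hl hlS 𝔓 h𝔓
    exact ⟨v, hv, 𝔓, hv𝔓, hσ⟩
  obtain ⟨T, hT⟩ := af p hp ρ hρ N hN I
    (by
      rintro σ ⟨l, hl, hlS, 𝔓, h𝔓, hσ⟩ γ
      obtain ⟨𝔓', h1, h2⟩ := conj_inertia l 𝔓 h𝔓 σ γ hσ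
      exact ⟨l, hl, hlS, 𝔓', h1, h2⟩)
    (by
      intro σ hσ
      obtain ⟨v, hv, 𝔓, h𝔓, h1⟩ := hI σ hσ
      exact (hun v hv 𝔓 h𝔓 σ h1).2)
    (by
      intro σ hσ
      obtain ⟨v, hv, 𝔓, h𝔓, h1⟩ := hI σ hσ
      exact (hun v hv 𝔓 h𝔓 σ h1).1)
    (by
      intro D
      obtain ⟨Y₀, -, hY₀, h⟩ := MU.st_HER F (resch S₀) (resch_prime S₀) D
      refine ⟨Y₀, hY₀, fun Y hYn hYc h0 hD hIY => h Y hYn hYc h0 hD ?_⟩
      intro l hl hlS 𝔓 h𝔓 σ hσ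
      exact hIY σ ⟨l, hl, hlS, 𝔓, h𝔓, hσ⟩)
  refine ⟨T, fun c hc h0 => hT c hc.1 (fun g h => ?_) (fun σ hσN hσ => ?_) h0⟩
  · have h1 := hc.2.1 g h
    rwa [MonoidHom.one_apply, Units.val_one, one_smul] at h1
  · obtain ⟨v, hv, 𝔓, h𝔓, h1⟩ := hI σ hσ
    obtain ⟨i, γ, hbij, hD⟩ := hC v hv 𝔓 h𝔓 σ h1
    obtain ⟨y, hy⟩ := hc.2.2 i γ
    have hργ : ρ (γ⁻¹ * σ * γ) = 1 := by
      rw [map_mul, map_mul, (hun v hv 𝔓 h𝔓 σ h1).1, mul_one, ← map_mul, inv_mul_cancel, map_one]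
    have hconj : γ * (γ⁻¹ * σ * γ) * γ⁻¹ = σ := by group
    have h2 := hy ⟨γ⁻¹ * σ * γ, hD⟩ (by
      show γ * (γ⁻¹ * σ * γ) * γ⁻¹ ∈ N
      rw [hconj]
      exact hσN)
    obtain ⟨w, rfl⟩ := hbij.2 y
    rw [← C.equiv i ⟨γ⁻¹ * σ * γ, hD⟩ w] at h2
    have h3 : ((ρ (γ⁻¹ * σ * γ) : Matrix.GeneralLinearGroup (Fin d) k) :
        Matrix (Fin d) (Fin d) k).mulVec w = w := by
      rw [hργ]
      exact Matrix.one_mulVec w
    have h4 : C.j i (vec ρ γ⁻¹ (c ⟨σ, hσN⟩)) = 0 := by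
      have h5 : (⟨γ * (γ⁻¹ * σ * γ) * γ⁻¹, by rw [hconj]; exact hσN⟩ : N) = ⟨σ, hσN⟩ :=
        Subtype.ext hconj
      rw [← h5]
      rw [MonoidHom.one_apply, Units.val_one, one_smul] at h2
      rw [h2]
      show C.j i (((ρ (γ⁻¹ * σ * γ) : Matrix.GeneralLinearGroup (Fin d) k) :
        Matrix (Fin d) (Fin d) k).mulVec w) - C.j i w = 0
      rw [h3, sub_self]
    have h6 : vec ρ γ⁻¹ (c ⟨σ, hσN⟩) = 0 := hbij.1 (by rw [h4, map_zero])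
    have h7 : vec ρ γ (vec ρ γ⁻¹ (c ⟨σ, hσN⟩)) = c ⟨σ, hσN⟩ := by
      unfold vec
      rw [Matrix.mulVec_mulVec, ← Units.val_mul, ← map_mul, mul_inv_cancel, map_one]
      exact Matrix.one_mulVec _
    rw [← h7, h6]
    exact Matrix.mulVec_zero _

/-- **The Selmer group has finite dimension.** -/
theorem selDim {k : Type} [NormedField k] [IsUltrametricDist k] (p : ℕ) [Fact p.Prime]
    (hp : ‖(p : k)‖ < 1) {d : ℕ} (ρ : Gal F →* Matrix.GeneralLinearGroup (Fin d) k)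
    (hρ : Continuous ρ) (C : Local ρ) (N : Subgroup (Gal F)) [N.Normal]
    (hN : IsOpen (N : Set (Gal F))) (S₀ : Finset (Pl F))
    (hC : ∀ v ∉ S₀, ∀ 𝔓 : Ideal (Zb F), Over v 𝔓 → ∀ σ, Congr 𝔓 1 σ →
      ∃ (i : C.I) (γ : Gal F), Function.Bijective (C.j i) ∧ γ⁻¹ * σ * γ ∈ C.D i)
    (hun : ∀ v ∉ S₀, ∀ 𝔓 : Ideal (Zb F), Over v 𝔓 → ∀ σ, Congr 𝔓 1 σ → ρ σ = 1 ∧ σ ∈ N) :
    ∃ s, SelDim ρ C N 1 s := by
  obtain ⟨T, hT⟩ := exists_T p hp ρ hρ C N hN S₀ hC hun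
  -- evaluation at the points of `T`
  let ev : Sel.selM ρ C N 1 →ₗ[k] (T → Fin d → k) :=
    { toFun := fun z t => (z : N → Fin d → k) t
      map_add' := fun _ _ => rfl
      map_smul' := fun _ _ => rfl }
  have hev : Function.Injective ev := by
    rw [← LinearMap.ker_eq_bot, LinearMap.ker_eq_bot']
    intro z hz
    apply Subtype.ext
    exact hT z z.2 fun t ht => congrFun hz ⟨t, ht⟩
  have hfd : FiniteDimensional k (Sel.selM ρ C N 1) := FiniteDimensional.of_injective ev hev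
  have hfd' : FiniteDimensional k (Sel.XX ρ C N) :=
    Module.Finite.of_surjective (Sel.clsL ρ C N) (Sel.clsL_surj ρ C N)
  let b := Module.finBasis k (Sel.XX ρ C N)
  choose z hz using fun j => Sel.clsL_surj ρ C N (b j)
  refine ⟨Module.finrank k (Sel.XX ρ C N), fun j => z j, fun j => (z j).2, fun c hc => ?_⟩
  have hiff : ∀ a : Fin (Module.finrank k (Sel.XX ρ C N)) → k,
      IsCob ρ N 1 (fun g => c g - ∑ i, a i • (z i : N → Fin d → k) g) ↔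
      Sel.clsL ρ C N ⟨c, hc⟩ = ∑ i, a i • b i := by
    intro a
    have e1 : Sel.clsL ρ C N ⟨c, hc⟩ - ∑ i, a i • b i =
        Sel.clsL ρ C N (⟨c, hc⟩ - ∑ i, a i • z i) := by
      rw [map_sub, map_sum]
      congr 1
      refine Finset.sum_congr rfl fun i _ => ?_
      rw [map_smul, hz]
    rw [← sub_eq_zero (a := Sel.clsL ρ C N ⟨c, hc⟩), e1, Sel.clsL_eq_zero]
    have e0 : (fun g => c g - ∑ i, a i • (z i : N → Fin d → k) g) =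
        ((⟨c, hc⟩ - ∑ i, a i • z i : Sel.selM ρ C N 1) : N → Fin d → k) := by
      funext g
      rw [Submodule.coe_sub, Submodule.coe_sum]
      simp only [Finset.sum_apply, Pi.smul_apply, SetLike.val_smul, Pi.sub_apply]
    rw [e0]
    rfl
  refine ⟨fun i => b.repr (Sel.clsL ρ C N ⟨c, hc⟩) i, ?_, ?_⟩
  · refine (hiff _).2 ?_
    rw [b.sum_repr]
  · intro a ha
    have ha' := (hiff a).1 ha
    funext i
    rw [ha', b.repr_sum_self]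

end SF94
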